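import Pool.Agent.Lib_MP_ec220f_lc.Plug7

/-!
# MP_ec220f_lc: orbit algebras of canonical universal graphs

Let `𝓕` be a finite set of finite connected graphs such that some countable universal
`𝓕`-free graph is `ℵ₀`-categorical. Then the countable existentially complete `𝓕`-free graph
`Γ` exists, and the orbit algebra of `Aut(Γ)` acting on the vertices is a polynomial algebra.
-/

namespace Pool.Agent.Results.MP_ec220f_lc.OrbitAlgebraPolynomial

open _root_.MPec220f FirstOrder FirstOrder.Language

/-- `Δ` is a universal `𝓕`-free graph: it is `𝓕`-free, and every countable `𝓕`-free graph is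
isomorphic to an induced subgraph of `Δ`. -/
def Universal (𝓕 : Set FinGraph) {U : Type} (Δ : SimpleGraph U) : Prop :=
  IsFree 𝓕 Δ ∧ ∀ (W : Type) (H : SimpleGraph W), Countable W → IsFree 𝓕 H → Nonempty (H ↪g Δ)

/-- `Δ` is `ℵ₀`-categorical: the complete first-order theory of `Δ`, in the language of
graphs, has up to isomorphism at most one countably infinite model. -/
def AlephZeroCategorical {U : Type} (Δ : SimpleGraph U) : Prop :=
  @Cardinal.Categorical FirstOrder.Language.graph Cardinal.aleph0.{0}
    (@FirstOrder.Language.completeTheory FirstOrder.Language.graph U Δ.structure)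

/-- `Γ` is an existentially complete `𝓕`-free graph: `Γ` is `𝓕`-free, and for every `𝓕`-free
graph `H` containing `Γ` as an induced subgraph (by the embedding `j`), every existential
first-order formula with parameters from `Γ` (a formula whose free variables are the vertices
of `Γ`, each interpreted by itself) that holds in `H` holds in `Γ`. -/
def ExistentiallyComplete (𝓕 : Set FinGraph) {V : Type} (Γ : SimpleGraph V) : Prop :=
  IsFree 𝓕 Γ ∧ ∀ (W : Type) (H : SimpleGraph W), IsFree 𝓕 H → ∀ j : Γ ↪g H,
    ∀ φ : FirstOrder.Language.graph.Formula V, BoundedFormula.IsExistential φ →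
      @Formula.Realize FirstOrder.Language.graph W H.structure V φ j →
        @Formula.Realize FirstOrder.Language.graph V Γ.structure V φ id

/-- The orbit algebra of the canonical universal `𝓕`-free graph is a polynomial algebra. -/
theorem result (𝓕 : Set FinGraph) (hfin : 𝓕.Finite) (hconn : ∀ F ∈ 𝓕, F.2.Connected)
    (hcat : ∃ (U : Type) (Δ : SimpleGraph U), Countable U ∧ Universal 𝓕 Δ ∧
      AlephZeroCategorical Δ) :
    (∃ (V : Type) (Γ : SimpleGraph V), Countable V ∧ ExistentiallyComplete 𝓕 Γ) ∧
      ∀ (V : Type) [Countable V] [DecidableEq V] (Γ : SimpleGraph V),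
        ExistentiallyComplete 𝓕 Γ →
          ∃ σ : Type, Nonempty (MvPolynomial σ ℚ ≃ₐ[ℚ] orbitAlgebra (autSub Γ)) := by
  obtain ⟨U, Δ, hU, huni, hcat⟩ := hcat
  refine ⟨?_, ?_⟩
  · obtain ⟨V, hV, Γ, hΓ⟩ := exists_ec hfin hconn
    exact ⟨V, Γ, hV, exComplete_of_isEC hΓ⟩
  · intro V _ _ Γ hΓ
    exact polynomial_general hfin hconn huni hcat (isEC_of_exComplete hΓ)

end Pool.Agent.Results.MP_ec220f_lc.OrbitAlgebraPolynomial
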